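import Mathlib
import Pool.Agent.X169.RandomSetsExample

/-!
# The law for random sets with small common expectation fails in Hilbert space

The space is the real `ℓ²` and the constant is `ε = 1/8`.
-/

namespace Pool.Agent.Results.MP_b91784_pr.SmallExpectationFails

open MeasureTheory ProbabilityTheory Filter Topology Set X169.RS

/-- `X` is B-convex. -/
def BConvex (X : Type*) [NormedAddCommGroup X] [NormedSpace ℝ X] : Prop :=
  ∃ n : ℕ, 2 ≤ n ∧ ∃ η : ℝ, 0 < η ∧ ∀ x : Fin n → X, (∀ i, ‖x i‖ ≤ 1) →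
    ∃ s : Fin n → ℝ, (∀ i, s i = 1 ∨ s i = -1) ∧ ‖∑ i, s i • x i‖ ≤ n * (1 - η)

theorem bconvex_of_inner (H : Type*) [NormedAddCommGroup H] [InnerProductSpace ℝ H] :
    BConvex H := by
  refine ⟨2, le_rfl, 1 / 4, by norm_num, fun x hx => ?_⟩
  have h0 := hx 0
  have h1 := hx 1
  have hp := parallelogram_bound (x 0) (x 1)
  have h0' : ‖x 0‖ ^ 2 ≤ 1 := by
    have := norm_nonneg (x 0)
    nlinarith
  have h1' : ‖x 1‖ ^ 2 ≤ 1 := by
    have := norm_nonneg (x 1)
    nlinarith
  by_cases h : ‖x 0 + x 1‖ ≤ 3 / 2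
  · refine ⟨fun _ => 1, fun _ => Or.inl rfl, ?_⟩
    simp only [Fin.sum_univ_two, one_smul]
    norm_num
    linarith
  · push Not at h
    refine ⟨![1, -1], ?_, ?_⟩
    · intro i
      fin_cases i
      · left; rfl
      · right; rfl
    · simp only [Fin.sum_univ_two, Matrix.cons_val_zero, Matrix.cons_val_one, one_smul, neg_smul]
      rw [← sub_eq_add_neg]
      have hs : ‖x 0 - x 1‖ ≤ 3 / 2 := by
        by_contra hc
        push Not at hc
        nlinarith
      norm_num
      linarith

/-- `Ψ` is an independent sequence of random sets, all of them contained in the unit ball and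
with the expectation `U`. -/
structure Admissible {X : Type*} [NormedAddCommGroup X] [NormedSpace ℝ X] {Ω : Type*}
    [MeasurableSpace Ω] (μ : Measure Ω) (Ψ : ℕ → Ω → BC X) (U : BC X) : Prop where
  ball : ∀ n ω, (Ψ n ω).carrier ⊆ Metric.closedBall 0 1
  measurable : ∀ n, StronglyMeasurable fun ω => R (Ψ n ω)
  indep : IndepSets Ψ μ
  expectation : ∀ n, HasExpectation (Ψ n) U μ

/-- In the real Hilbert space `ℓ²` (which is B-convex) there is `ε > 0` such that for every
`δ > 0` there are a probability space, a set `U` with `‖U‖ ≤ δ` and a sequence of independent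
random sets contained in the unit ball, all with expectation `U`, for which the upper limit of
the norms of the averages exceeds `ε` at every point of the probability space. -/
theorem result : BConvex ell2 ∧ ∃ ε : ℝ, 0 < ε ∧ ∀ δ : ℝ, 0 < δ →
    ∃ (Ω : Type) (_ : MeasurableSpace Ω) (μ : Measure Ω) (_ : IsProbabilityMeasure μ)
      (Ψ : ℕ → Ω → BC ell2) (U : BC ell2),
      setNorm U.carrier ≤ δ ∧ Admissible μ Ψ U ∧
      ∀ ω, ε < limsup (fun n => setNorm (avg Ψ n ω).carrier) atTop := by
  refine ⟨bconvex_of_inner ell2, 1 / 8, by norm_num, fun δ hδ => ?_⟩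
  obtain ⟨b, hb⟩ := exists_orthonormal_ell2
  obtain ⟨Ω, mΩ, μ, hμ, Ψ, U, _, hUδ, hΨ, hm, hE, hI, hL⟩ := exists_example hb hδ
  refine ⟨Ω, mΩ, μ, hμ, Ψ, U, setNorm_le U hUδ, ⟨fun n ω x hx => ?_, hm, hI, hE⟩, fun ω => ?_⟩
  · rw [mem_closedBall_zero_iff]
    exact hΨ n ω x hx
  · exact lt_limsup_of_large hΨ ω (hL ω)

end Pool.Agent.Results.MP_b91784_pr.SmallExpectationFails
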